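import Pool.Agent.W978.QO.Stm
import Pool.Agent.W509.QN.BR
import Pool.Agent.W597.QN.RK
import Pool.Agent.W585.QN.DET

/-! QO-DC: the determinants, curried form. -/

set_option autoImplicit false

namespace Pool.Agent.W193.QO

open Finset Pool.Agent.W978.QN Pool.Agent.W978.QO

theorem dc : S_DC := by
  intro a ha σ
  have hBR := Pool.Agent.W509.QN.br
  have h10 : σ 0 ≠ σ 1 := fun h => by simpa using σ.injective h
  have h20 : σ 0 ≠ σ 2 := fun h => by simpa using σ.injective h
  have h21 : σ 1 ≠ σ 2 := fun h => by simpa using σ.injective h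
  obtain ⟨P, hP⟩ := Pool.Agent.W585.QN.main hBR (Pool.Agent.W597.QN.rk hBR) a ha (σ 1) (σ 2) h21
  refine ⟨P (σ 0), ?_⟩
  have h : mt a (σ 1) (σ 2) P = (Matrix.of (mp (cu a σ) (P (σ 0)))).transpose := by
    ext u v
    rw [Matrix.transpose_apply, Matrix.of_apply]
    unfold Pool.Agent.W978.QN.mt
    rw [Matrix.of_apply, hBR ℂ a σ, Function.update_of_ne h20, Function.update_of_ne h10,
      Function.update_of_ne h21, Function.update_self, Function.update_self]
    unfold cf mp bv
    simp [Pi.single_apply]
  rw [h, Matrix.det_transpose] at hP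
  exact hP

end Pool.Agent.W193.QO
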